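import Pool.Agent.Run7.h728.DZ.First

/-!
# The first coefficient of a relation between odd double zeta values

Every relation `∑ c_a ζ(2a + 3, k - 2a - 3) = 0` of every even weight `k`, with real coefficients, has
a coefficient which is more than three times the first coefficient different from `0`. In particular,
no nonzero integer vector of the space `R_k` of the problem has all its coordinates in `[-3, 3]`.
The proof is an inequality between the double zeta values of weight `k`: each of them is larger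
than the sum of the following ones with the weights `(4 - β) β ^ j`. The series are compared for each
value of the larger variable.
-/

set_option autoImplicit false

namespace Pool.Agent.Results.MP_9206b6_nt.FirstCoefficient

/-- the double zeta value `ζ(p, q)`, the sum of `m ^ (-p) n ^ (-q)` over `m > n ≥ 1` -/
noncomputable def dz (p q : ℕ) : ℝ :=
  ∑' m : ℕ, (∑ n ∈ Finset.Ico 1 (m + 1), 1 / (n : ℝ) ^ q) / ((m + 1 : ℕ) : ℝ) ^ p

/-- Let `k = 2 n + 2` be even. The `n = k / 2 - 1` numbers of the problem are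
`ζ(2 a + 3, 2 (n - a) - 1)`, `0 ≤ a < n`.
(1) Let `∑_a c_a ζ(2 a + 3, 2 (n - a) - 1) = 0` with real numbers `c_a`, let `c_a ≠ 0` and `c_b = 0`
for `b < a`. Then for every real `β` with `1 ≤ β < 4` there is `j ≥ 0` with
`|c_(a + j + 1)| > (4 - β) β ^ j |c_a|`. (For `β = 1`: `|c_(a + j + 1)| > 3 |c_a|`; for `β = 2`:
`|c_(a + j + 1)| > 2 ^ (j + 1) |c_a|`.)
(2) If the `c_a` are integers, not all zero, then `|c_a| ≥ 4` for some `a`. -/
theorem result :
    (∀ (n : ℕ) (c : ℕ → ℝ) (β : ℝ), 1 ≤ β → β < 4 →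
      ∑ a ∈ Finset.range n, c a * dz (2 * a + 3) (2 * (n - a) - 1) = 0 →
      ∀ a, a < n → c a ≠ 0 → (∀ b, b < a → c b = 0) →
      ∃ j, a + j + 1 < n ∧ (4 - β) * β ^ j * |c a| < |c (a + j + 1)|) ∧
    (∀ (n : ℕ) (c : ℕ → ℤ),
      ∑ a ∈ Finset.range n, (c a : ℝ) * dz (2 * a + 3) (2 * (n - a) - 1) = 0 →
      (∃ a, a < n ∧ c a ≠ 0) → ∃ a, a < n ∧ 4 ≤ |c a|) := by
  classical
  have main : ∀ (n : ℕ) (c : ℕ → ℝ) (β : ℝ), 1 ≤ β → β < 4 →
      ∑ a ∈ Finset.range n, c a * dz (2 * a + 3) (2 * (n - a) - 1) = 0 →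
      ∀ a, a < n → c a ≠ 0 → (∀ b, b < a → c b = 0) →
      ∃ j, a + j + 1 < n ∧ (4 - β) * β ^ j * |c a| < |c (a + j + 1)| :=
    fun n c β h1 h4 hrel a ha hc hmin =>
      Pool.Agent.Run7.h728.DZ.first_coef n c β h1 h4 hrel a ha hc hmin
  refine ⟨main, fun n c hrel hex => ?_⟩
  obtain ⟨ha, hc⟩ := Nat.find_spec hex
  set a := Nat.find hex with hadef
  have hmin : ∀ b, b < a → (c b : ℝ) = 0 := by
    intro b hb
    have h1 := Nat.find_min hex hb
    by_contra h2
    apply h1
    exact ⟨by omega, fun h3 => h2 (by rw [h3, Int.cast_zero])⟩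
  obtain ⟨j, hj, h1⟩ := main n (fun a => (c a : ℝ)) 1 le_rfl (by norm_num) hrel a ha
    (by exact_mod_cast hc) hmin
  refine ⟨a + j + 1, hj, ?_⟩
  rw [one_pow, mul_one] at h1
  norm_num at h1
  have h2 : (3 : ℤ) * |c a| < |c (a + j + 1)| := by exact_mod_cast h1
  have h3 := Int.one_le_abs hc
  omega

end Pool.Agent.Results.MP_9206b6_nt.FirstCoefficient
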