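import Pool.Agent.Run7.h728.DZ.Fam
import Pool.Agent.Run7.h728.DZ.Pow
import Pool.Agent.Run7.h728.DZ.Both

/-!
# Linear families of double zeta values

No relation between finitely many double zeta values of the same weight whose arguments are linear
functions of a parameter, with real coefficients which vary slowly with the parameter. Fixed
arguments at both ends are allowed; in this case, for constant real coefficients, the number of the
weights with a relation is bounded explicitly, and uniformly in the positions. The proof compares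
the coefficients of the Dirichlet series at the prime powers `P ^ ρ` and at the powers `M ^ W`; at
the latter the harmonic sums enter, whose independence over the rational functions and bound for the
zeros are theorems of the starting files (`Pool.Agent.R404.MZ`).
-/

set_option autoImplicit false

namespace Pool.Agent.Results.MP_9206b6_nt.LinearFamilies

open Filter

/-- the double zeta value `ζ(p, q)`, the sum of `m ^ (-p) n ^ (-q)` over `m > n ≥ 1` -/
noncomputable def dz (p q : ℕ) : ℝ :=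
  ∑' m : ℕ, (∑ n ∈ Finset.Ico 1 (m + 1), 1 / (n : ℝ) ^ q) / ((m + 1 : ℕ) : ℝ) ^ p

/-- the zeta value `ζ(w)` -/
noncomputable def zv (w : ℕ) : ℝ := ∑' m : ℕ, 1 / ((m + 1 : ℕ) : ℝ) ^ w

/-- the nonzero elements of the real vector space `V` of functions are neither exponentially large
nor exponentially small -/
def Slow (V : Submodule ℝ (ℕ → ℝ)) : Prop :=
  ∀ g ∈ V, g ≠ 0 → ∀ ρ : ℝ, 0 < ρ → ρ < 1 → ∀ᶠ x in atTop, ρ ^ x ≤ |g x| ∧ |g x| ≤ (ρ⁻¹) ^ x

/-- the finite sums `∑ c_α x ^ α` with real `c_α` and `α` -/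
noncomputable def Pw : Submodule ℝ (ℕ → ℝ) :=
  Submodule.span ℝ (Set.range fun α : ℝ => fun x : ℕ => (x : ℝ) ^ α)

/-- (1) Let `V` be slow, for example the space of the sums of real powers (polynomials among them).
Let `W ≥ 1`, `w0` be integers and `(r_i, a_i)` finitely many distinct pairs of integers,
`0 ≤ r_i ≤ W`, with `a_i ≥ 2` if `r_i = 0` and `a_i < w0` if `r_i = W`. If `c_i`, `e` are in `V` and
not all zero, `∑ c_i(x) ζ(r_i x + a_i, (W - r_i) x + w0 - a_i) + e(x) ζ(W x + w0) ≠ 0` for all large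
`x`. (2) In the case of the two ends and of constant coefficients: let `P`, `Q` be finite sets of
integers in `[2, J]`, `[1, J]` and `c_p`, `d_q`, `e` real numbers, not all zero. Then
`∑_P c_p ζ(p, k - p) + ∑_Q d_q ζ(k - q, q) + e ζ(k) = 0` for at most `(J + 1)(J + 2) - 1` numbers
`k ≥ J + 2`, and for at most `R` numbers `k` (with `k ≥ s + 2` for all `s` in `P` and `Q`), where `R`
depends only on the number of the elements of `P` and `Q`. -/
theorem result :
    (∀ (ι : Type) [Fintype ι] (W : ℕ), 1 ≤ W → ∀ (w0 : ℤ) (r : ι → ℕ) (a : ι → ℤ),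
      (∀ i, r i ≤ W) → (Function.Injective fun i => (r i, a i)) → (∀ i, r i = 0 → 2 ≤ a i) →
      (∀ i, r i = W → a i < w0) → ∀ V : Submodule ℝ (ℕ → ℝ), Slow V →
      ∀ (c : ι → ℕ → ℝ) (e : ℕ → ℝ), (∀ i, c i ∈ V) → e ∈ V → ((∃ i, c i ≠ 0) ∨ e ≠ 0) →
      ∀ᶠ x : ℕ in atTop, ∑ i, c i x * dz ((r i : ℤ) * x + a i).toNat
        (((W : ℤ) - r i) * x + (w0 - a i)).toNat + e x * zv ((W : ℤ) * x + w0).toNat ≠ 0) ∧
    Slow Pw ∧
    (∀ (J : ℕ) (P Q : Finset ℕ) (c d : ℕ → ℝ) (e : ℝ), (∀ p ∈ P, 2 ≤ p ∧ p ≤ J) →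
      (∀ q ∈ Q, 1 ≤ q ∧ q ≤ J) → ((∃ p ∈ P, c p ≠ 0) ∨ (∃ q ∈ Q, d q ≠ 0) ∨ e ≠ 0) →
      {k : ℕ | J + 2 ≤ k ∧
        ∑ p ∈ P, c p * dz p (k - p) + ∑ q ∈ Q, d q * dz (k - q) q + e * zv k = 0}.encard ≤
          (((J + 1) * (J + 2) - 1 : ℕ) : ℕ∞)) ∧
    (∀ N : ℕ, ∃ R : ℕ, ∀ (P Q : Finset ℕ) (c d : ℕ → ℝ) (e : ℝ), P.card + Q.card ≤ N →
      (∀ p ∈ P, 2 ≤ p) → (∀ q ∈ Q, 1 ≤ q) →
      ((∃ p ∈ P, c p ≠ 0) ∨ (∃ q ∈ Q, d q ≠ 0) ∨ e ≠ 0) →
      {k : ℕ | 2 ≤ k ∧ (∀ p ∈ P, p + 2 ≤ k) ∧ (∀ q ∈ Q, q + 2 ≤ k) ∧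
        ∑ p ∈ P, c p * dz p (k - p) + ∑ q ∈ Q, d q * dz (k - q) q + e * zv k = 0}.encard ≤
          (R : ℕ∞)) := by
  refine ⟨?_, Pool.Agent.Run7.h728.DZ.slow_Pw, ?_, ?_⟩
  · intro ι _ W hW w0 r a hr hinj h0 h1 V hV c e hc he hne
    exact Pool.Agent.Run7.h728.DZ.families W hW w0 r a hr hinj h0 h1 hV c hc e he hne
  · intro J P Q c d e hP hQ hne
    exact Pool.Agent.Run7.h728.DZ.both_box J P Q c d e hP hQ hne
  · intro N
    obtain ⟨R, hR⟩ := Pool.Agent.Run7.h728.DZ.both_few N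
    exact ⟨R, fun P Q c d e hN hP hQ hne => hR P Q c d e hN hP hQ hne⟩

end Pool.Agent.Results.MP_9206b6_nt.LinearFamilies
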