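import Pool.Agent.Run7.h776.DZW.UniAsy

/-!
# Double zeta values of weight `k` with first arguments in short windows

The windows are: the neighbourhoods `|s p - r k| ≤ k ^ t` of the multiples `r k / s`, `0 < r < s`, and
two windows `u ≤ p ≤ u + L`, `u ≤ k - p ≤ u + L` of length `L ≤ k ^ t'` near the two ends, at distance
between `k ^ a` and `k ^ b` from them. There is no relation with integer coefficients of absolute value
at most `2 ^ (k ^ γ)` between `ζ(k)` and the double zeta values `ζ(p, k - p)` with `p` in these windows.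
-/

set_option autoImplicit false

namespace Pool.Agent.Results.MP_9206b6_nt.ShortWindows

open Finset

/-- the double zeta value `ζ(p, q)`, the sum of `m ^ (-p) n ^ (-q)` over `m > n ≥ 1` -/
noncomputable def dz (p q : ℕ) : ℝ :=
  ∑' m : ℕ, (∑ n ∈ Finset.Ico 1 (m + 1), 1 / (n : ℝ) ^ q) / ((m + 1 : ℕ) : ℝ) ^ p

/-- the zeta value `ζ(k)` -/
noncomputable def zv (k : ℕ) : ℝ := ∑' m : ℕ, 1 / ((m + 1 : ℕ) : ℝ) ^ k

open Classical in
/-- the `p ≤ k` with `|s p - r k| ≤ k ^ t` for some integer `0 < r < s` -/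
noncomputable def multiples (k s : ℕ) (t : ℝ) : Finset ℕ :=
  (range (k + 1)).filter fun p => ∃ r : ℕ, 1 ≤ r ∧ r < s ∧ |(s : ℝ) * p - r * k| ≤ (k : ℝ) ^ t

/-- Let `s ≥ 2` be an integer and `t, t', γ > 0`, `a`, `b`, `ε` real numbers with
`max(t, γ) + (s - 1) min(t, γ) < 1`, `max(t, t', γ) + min(t', γ) < a`, `b + min(t', γ) < 1`,
`b + (s - 1) min(t, γ) < 1`, `ε > min(t', γ)` and `s ε > (s - 1) min(t, γ)`. For all large `k`, all
`u`, `L` with `L ≤ k ^ t'`, `k - u - L ≥ k ^ a` and `k - u ≤ k ^ b`, and all integers `c_p`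
(`p ∈ multiples k s t`), `c'_p`, `c''_p` (`u ≤ p ≤ u + L`) of absolute value at most `2 ^ (k ^ γ)` and
`d`, not all zero:
`|∑ c_p ζ(p, k - p) + ∑ (c'_p ζ(p, k - p) + c''_p ζ(k - p, p)) + d ζ(k)| > k ^ (-ε k)`. -/
theorem result (s : ℕ) (hs : 2 ≤ s) (t γ t' a b ε : ℝ) (ht : 0 < t) (hγ : 0 < γ) (ht' : 0 < t')
    (h1 : max t γ + ((s : ℝ) - 1) * min t γ < 1)
    (h2 : max (max t t') γ + min t' γ < a)
    (h3 : b + min t' γ < 1) (h4 : b + ((s : ℝ) - 1) * min t γ < 1)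
    (h5 : min t' γ < ε) (h6 : ((s : ℝ) - 1) * min t γ < s * ε) :
    ∃ k0 : ℕ, ∀ k : ℕ, k0 ≤ k → ∀ u L : ℕ, (L : ℝ) ≤ (k : ℝ) ^ t' →
      (k : ℝ) ^ a ≤ (k : ℝ) - u - L → (k : ℝ) - u ≤ (k : ℝ) ^ b →
      ∀ (c c' c'' : ℕ → ℤ) (d : ℤ),
        (∀ p ∈ multiples k s t, |(c p : ℝ)| ≤ (2 : ℝ) ^ ((k : ℝ) ^ γ)) →
        (∀ p ∈ Icc u (u + L), |(c' p : ℝ)| ≤ (2 : ℝ) ^ ((k : ℝ) ^ γ) ∧
          |(c'' p : ℝ)| ≤ (2 : ℝ) ^ ((k : ℝ) ^ γ)) →
        (d ≠ 0 ∨ (∃ p ∈ multiples k s t, c p ≠ 0) ∨ ∃ p ∈ Icc u (u + L), c' p ≠ 0 ∨ c'' p ≠ 0) →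
        (k : ℝ) ^ (-(ε * k)) <
          |∑ p ∈ multiples k s t, (c p : ℝ) * dz p (k - p) +
            ∑ p ∈ Icc u (u + L), ((c' p : ℝ) * dz p (k - p) + (c'' p : ℝ) * dz (k - p) p) +
            d * zv k| := by
  have e1 : t ≤ max (max t t') γ := (le_max_left _ _).trans (le_max_left _ _)
  have e2 : t' ≤ max (max t t') γ := (le_max_right _ _).trans (le_max_left _ _)
  have e3 : γ ≤ max (max t t') γ := le_max_right _ _
  exact Run7.h776.DZW.uni_window s hs t γ t' a b ε ht hγ ht' h1 h6 (by linarith) (by linarith)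
    (by linarith) h3 h4 h5

end Pool.Agent.Results.MP_9206b6_nt.ShortWindows
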