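import Pool.Agent.Run7.h728.DZ.Gap

/-!
# Sparse relations between double zeta values of the same weight

Relations `∑_{s ∈ S} c_s ζ(s, k - s) + d ζ(k) = 0` with few terms and bounded integer coefficients in
large weights: where the terms are. As a consequence, for large `k` the space `R_k` of the problem
contains no nonzero integer vector with at most three nonzero coordinates, all in `[-H, H]`. The
proof uses the theorem
`MP_9206b6_nt.AllWeights` of the starting files (which rests on the subspace theorem) for the terms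
with large first argument, a pigeonhole argument for the gap, and the bound for the number of zeros
at the two ends.
-/

set_option autoImplicit false

namespace Pool.Agent.Results.MP_9206b6_nt.SparseRelations

/-- the double zeta value `ζ(p, q)`, the sum of `m ^ (-p) n ^ (-q)` over `m > n ≥ 1` -/
noncomputable def dz (p q : ℕ) : ℝ :=
  ∑' m : ℕ, (∑ n ∈ Finset.Ico 1 (m + 1), 1 / (n : ℝ) ^ q) / ((m + 1 : ℕ) : ℝ) ^ p

/-- the zeta value `ζ(w)` -/
noncomputable def zv (w : ℕ) : ℝ := ∑' m : ℕ, 1 / ((m + 1 : ℕ) : ℝ) ^ w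

/-- For all `N`, `H`, `Q` there are `P`, `k0`, `η > 0` such that for every relation
`∑_{s ∈ S} c_s ζ(s, k - s) + d ζ(k) = 0` of weight `k ≥ k0` with `1 ≤ |S| ≤ N` and integers
`c_s ≠ 0`, `d` of absolute value at most `H`: every `s ∈ S` is `≤ P` or `≥ η k`, the first kind is not
empty (has two elements if `d = 0`) and `∑ c_s (ζ(s) - 1) + d = 0` over it, the second kind has two
elements, one of which is `≤ k - Q`. Therefore, for every `H` and all large `k` there is no relation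
`∑_{s ∈ S} c_s ζ(s, k - s) = 0` with `1 ≤ |S| ≤ 3` and nonzero integers `c_s` of absolute value at
most `H`. -/
theorem result :
    (∀ N H Q : ℕ, ∃ (P k0 : ℕ) (η : ℝ), 0 < η ∧ ∀ k : ℕ, k0 ≤ k →
      ∀ (S : Finset ℕ) (c : ℕ → ℤ) (d : ℤ), S.Nonempty → S.card ≤ N →
      (∀ s ∈ S, 2 ≤ s ∧ s < k ∧ c s ≠ 0 ∧ |c s| ≤ H) → |d| ≤ H →
      ∑ s ∈ S, (c s : ℝ) * dz s (k - s) + d * zv k = 0 →
      (∃ s ∈ S, s ≤ P) ∧ (d = 0 → 2 ≤ (S.filter (· ≤ P)).card) ∧
        ∑ s ∈ S.filter (· ≤ P), (c s : ℝ) * (zv s - 1) + d = 0 ∧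
        (∀ s ∈ S, s ≤ P ∨ η * k ≤ s) ∧ 2 ≤ (S.filter (fun s : ℕ => η * k ≤ (s : ℝ))).card ∧
        (∃ s ∈ S, η * k ≤ s ∧ s + Q ≤ k)) ∧
    (∀ H : ℕ, ∃ k0 : ℕ, ∀ k : ℕ, k0 ≤ k → ∀ (S : Finset ℕ) (c : ℕ → ℤ), S.Nonempty → S.card ≤ 3 →
      (∀ s ∈ S, 2 ≤ s ∧ s < k ∧ c s ≠ 0 ∧ |c s| ≤ H) →
      ∑ s ∈ S, (c s : ℝ) * dz s (k - s) ≠ 0) := by
  refine ⟨?_, ?_⟩
  · intro N H Q
    obtain ⟨P, k0, η, hη, h⟩ := Pool.Agent.Run7.h728.DZ.gap N H Q
    exact ⟨P, k0, η, hη, fun k hk S c d hne hSN hS hd hrel => h k hk S c d hne hSN hS hd hrel⟩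
  · intro H
    obtain ⟨P, k0, η, hη, h⟩ := Pool.Agent.Run7.h728.DZ.gap 3 H 0
    obtain ⟨k1, hk1⟩ : ∃ k1 : ℕ, (P : ℝ) < η * k1 := by
      obtain ⟨n, hn⟩ := exists_nat_gt ((P : ℝ) / η)
      exact ⟨n, by rwa [div_lt_iff₀' hη] at hn⟩
    refine ⟨k0 + k1, fun k hk S c hne hSN hS hrel => ?_⟩
    obtain ⟨-, h1, -, -, h2, -⟩ := h k (by omega) S c 0 hne hSN hS (by simp) (by
      rw [Int.cast_zero, zero_mul, add_zero]
      exact hrel)
    have h3 := h1 rfl
    have h4 : Disjoint (S.filter (· ≤ P)) (S.filter (fun s : ℕ => η * k ≤ (s : ℝ))) := by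
      rw [Finset.disjoint_filter]
      intro s _ h5 h6
      have h7 : (s : ℝ) ≤ P := by exact_mod_cast h5
      have h8 : η * k1 ≤ η * k := mul_le_mul_of_nonneg_left
        (by exact_mod_cast (by omega : k1 ≤ k)) hη.le
      linarith
    have h5 := Finset.card_union_of_disjoint h4
    have h6 : (S.filter (· ≤ P) ∪ S.filter (fun s : ℕ => η * k ≤ (s : ℝ))).card ≤ S.card :=
      Finset.card_le_card (Finset.union_subset (Finset.filter_subset _ _)
        (Finset.filter_subset _ _))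
    omega

end Pool.Agent.Results.MP_9206b6_nt.SparseRelations
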